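import Pool.Agent.T2H87.CR.DUAL
import Pool.Agent.T2H87.CR.REAL
import Pool.Agent.T2H87.CR.SUB
import Pool.Agent.T2H87.CR.C5G
import Pool.Agent.T2H87.CR.C5
import Pool.Agent.T2H87.CR.PROD
import Pool.Agent.T2H87.CR.PAL
import Pool.Agent.T2H87.CR.SUM2
import Pool.Agent.T2H87.CR.CIRC
import Pool.Agent.T2H87.CR.MAT
import Pool.Agent.T2H87.CR.GAP
import Pool.Agent.T2H87.CR.LIST
import Pool.Agent.T2H87.CR.TAB
import Pool.Agent.T2H87.CR.MID
import Pool.Agent.T2H87.CR.ASY

/-!
# Every positive integer except 3, 4, 7, 8, 9 is a chromatic Ramsey number (MP_8666b3_co)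

`Realizable N` (`Pool/Agent/T2H87/CR/Stm.lean`): `N` is the chromatic Ramsey number `R_χ(G)` of some graph `G`
with at least one vertex. A positive integer is realizable if and only if it is not one of `3, 4, 7, 8, 9`. This answers
both questions of the problem in the negative. For the idea of the proof see the head of `Stm.lean`.
-/

set_option autoImplicit false
set_option maxRecDepth 100000

open Finset

namespace Pool.Agent.Results.MP_8666b3_co.AllRealizable

open Pool.Agent.T2H87.CR

theorem hTAB : S_TAB :=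
  pTAB (pC5G pSUB) (pC5 pSUB) (pSUM2 (pPROD pSUB) pPAL) pCIRC pMAT

theorem hASY : S_ASY :=
  pASY (pC5 pSUB) (pSUM2 (pPROD pSUB) pPAL) pGAP
    (pMID (pC5 pSUB) (pSUM2 (pPROD pSUB) pPAL) pLIST hTAB)

theorem hREAL : S_REAL := pREAL pDUAL

theorem good_all (n : ℕ) (h : 12 ≤ n) : ∃ t : ℝ, 2 ≤ t ∧ t ^ 2 < n + 1 ∧ Good n t := by
  by_cases h1 : n < 41000
  · exact hTAB.1 n h h1
  · have hn : (41000 : ℝ) ≤ n := by exact_mod_cast (not_lt.1 h1)
    refine ⟨Real.sqrt (n + 49 / 50), ?_, ?_, hASY n (not_lt.1 h1)⟩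
    · apply Real.le_sqrt_of_sq_le
      linarith
    · rw [Real.sq_sqrt (by positivity)]
      linarith

theorem real_of {n k : ℕ} (H : SimpleGraph (Fin k)) (hk : 0 < k)
    (hup : ∀ F : SimpleGraph (Fin (n + 1)), Nonempty (H →g F) ∨ Nonempty (H →g Fᶜ))
    (B : SimpleGraph (Fin n)) (h1 : ¬ Nonempty (H →g B)) (h2 : ¬ Nonempty (H →g Bᶜ)) :
    Realizable (n + 1) := by
  classical
  have hlow : ∀ {l N' : ℕ} (K : SimpleGraph (Fin l)), K.Colorable N' → Arrows K H → n + 1 ≤ N' := by
    intro l N' K hK hR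
    have := PkgREAL.lower H B h1 h2 K hK hR
    rw [Fintype.card_fin] at this
    exact this
  obtain ⟨l, K, hK, hR⟩ := PkgREAL.upper (N := n + 1) H hup
  refine ⟨k, H, hk, ⟨l, K, ?_, hR⟩, ?_⟩
  · refine le_antisymm hK.chromaticNumber_le ?_
    rw [SimpleGraph.le_chromaticNumber_iff_colorable]
    intro q hq
    exact hlow K hq hR
  · rintro N' ⟨l', K', hK', hR'⟩
    refine hlow K' ?_ hR'
    exact SimpleGraph.chromaticNumber_le_iff_colorable.1 hK'.le

theorem real1 : Realizable 1 := by
  refine real_of (n := 0) (⊥ : SimpleGraph (Fin 1)) Nat.one_pos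
    (fun F => Or.inl ⟨⟨id, fun h => absurd h (by simp)⟩⟩) ⊥ ?_ ?_
  · rintro ⟨f⟩
    exact (f 0).elim0
  · rintro ⟨f⟩
    exact (f 0).elim0

theorem two (F : SimpleGraph (Fin 2)) :
    Nonempty ((⊤ : SimpleGraph (Fin 2)) →g F) ∨ Nonempty ((⊤ : SimpleGraph (Fin 2)) →g Fᶜ) := by
  by_cases h : F.Adj 0 1
  · refine Or.inl ⟨⟨id, ?_⟩⟩
    intro a b hab
    fin_cases a <;> fin_cases b
    · exact absurd rfl hab.ne
    · exact h
    · exact h.symm
    · exact absurd rfl hab.ne
  · have h' : Fᶜ.Adj 0 1 := by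
      rw [SimpleGraph.compl_adj]
      exact ⟨by decide, h⟩
    refine Or.inr ⟨⟨id, ?_⟩⟩
    intro a b hab
    fin_cases a <;> fin_cases b
    · exact absurd rfl hab.ne
    · exact h'
    · exact h'.symm
    · exact absurd rfl hab.ne

theorem real2 : Realizable 2 := by
  refine real_of (n := 1) (⊤ : SimpleGraph (Fin 2)) Nat.two_pos two ⊥ ?_ ?_
  · rintro ⟨f⟩
    have h := f.map_adj (show (⊤ : SimpleGraph (Fin 2)).Adj 0 1 from by
      rw [SimpleGraph.top_adj]; decide)
    exact h.ne (Subsingleton.elim _ _)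
  · rintro ⟨f⟩
    have h := f.map_adj (show (⊤ : SimpleGraph (Fin 2)).Adj 0 1 from by
      rw [SimpleGraph.top_adj]; decide)
    exact h.ne (Subsingleton.elim _ _)

/-- the values `5, 6, 10, 11, 12` -/
theorem real_small (n : ℕ) (W : ℕ) (hn : n < 41000) (hW : Tab.Wt n = W) (h2 : 2 * 10 ^ 8 ≤ W)
    (h3 : W * W < (n + 1) * 10 ^ 16) : Realizable (n + 1) := by
  have hg := PkgTAB.main (pC5G pSUB) (pSUM2 (pPROD pSUB) pPAL) pCIRC pMAT n hn (by omega)
  rw [hW] at hg
  refine hREAL n _ ?_ ?_ hg
  · rw [le_div_iff₀ (by positivity)]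
    exact_mod_cast h2
  · have h3' : ((W * W : ℕ) : ℝ) < (((n + 1) * 10 ^ 16 : ℕ) : ℝ) := by exact_mod_cast h3
    push_cast at h3'
    rw [div_pow, div_lt_iff₀ (by positivity)]
    nlinarith [h3']

theorem realizable (N : ℕ) (hN : 0 < N) (h : N ∉ ({3, 4, 7, 8, 9} : Finset ℕ)) : Realizable N := by
  by_cases h13 : 13 ≤ N
  · obtain ⟨n, rfl⟩ : ∃ n, N = n + 1 := ⟨N - 1, by omega⟩
    obtain ⟨t, h1, h2, h3⟩ := good_all n (by omega)
    exact hREAL n t h1 h2 h3
  · simp only [Finset.mem_insert, Finset.mem_singleton, not_or] at h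
    obtain ⟨a1, a2, a3, a4, a5⟩ := h
    have h' : N = 1 ∨ N = 2 ∨ N = 5 ∨ N = 6 ∨ N = 10 ∨ N = 11 ∨ N = 12 := by omega
    rcases h' with rfl | rfl | rfl | rfl | rfl | rfl | rfl
    · exact real1
    · exact real2
    · exact real_small 4 200000000 (by norm_num) (by decide +kernel) (by norm_num) (by norm_num)
    · exact real_small 5 223606798 (by norm_num) (by decide +kernel) (by norm_num) (by norm_num)
    · exact real_small 9 300000000 (by norm_num) (by decide +kernel) (by norm_num) (by norm_num)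
    · exact real_small 10 316718428 (by norm_num) (by decide +kernel) (by norm_num) (by norm_num)
    · exact real_small 11 345178648 (by norm_num) (by decide +kernel) (by norm_num) (by norm_num)

/-! ### the known exceptions 3, 4, 7, 8, 9 -/

theorem le_of_colorable {n c N R : ℕ} (G : SimpleGraph (Fin n)) (hG : G.Colorable c)
    (hF : ∀ F : SimpleGraph (Fin N), Nonempty ((⊤ : SimpleGraph (Fin c)) →g F) ∨
      Nonempty ((⊤ : SimpleGraph (Fin c)) →g Fᶜ)) (hR : IsChromaticRamsey G R) : R ≤ N := by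
  obtain ⟨C⟩ := hG
  obtain ⟨k, K, hK, hA⟩ := PkgREAL.upper (N := N) G (fun F => by
    rcases hF F with ⟨⟨f⟩⟩ | ⟨⟨f⟩⟩
    · exact Or.inl ⟨SimpleGraph.Hom.comp f C⟩
    · exact Or.inr ⟨SimpleGraph.Hom.comp f C⟩)
  have hle := hK.chromaticNumber_le
  obtain ⟨q, hq⟩ : ∃ q : ℕ, K.chromaticNumber = q := by
    obtain ⟨q, hq⟩ := ENat.ne_top_iff_exists.1 (ne_top_of_le_ne_top (ENat.natCast_ne_top N) hle)
    exact ⟨q, hq.symm⟩
  have h1 : R ≤ q := hR.2 ⟨k, K, hq, hA⟩
  have h2 : q ≤ N := by
    rw [hq] at hle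
    exact_mod_cast hle
  exact h1.trans h2

theorem gt_of_not_colorable {n c R : ℕ} (G : SimpleGraph (Fin n)) (hG : ¬ G.Colorable c)
    (hR : IsChromaticRamsey G R) : c * c < R := by
  classical
  obtain ⟨⟨m, F, hF, hA⟩, -⟩ := hR
  have h1 : ¬ Nonempty (G →g ((⊤ : SimpleGraph (Fin c)).comap (Prod.fst : Fin c × Fin c → Fin c))) := by
    rintro ⟨f⟩
    refine hG ⟨SimpleGraph.Coloring.mk (fun x => (f x).1) ?_⟩
    intro v w hvw
    have := f.map_adj hvw
    simpa using this
  have h2 : ¬ Nonempty (G →g ((⊤ : SimpleGraph (Fin c)).comap (Prod.fst : Fin c × Fin c → Fin c))ᶜ) := by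
    rintro ⟨f⟩
    refine hG ⟨SimpleGraph.Coloring.mk (fun x => (f x).2) ?_⟩
    intro v w hvw hne
    have h3 := f.map_adj hvw
    rw [SimpleGraph.compl_adj] at h3
    obtain ⟨h4, h5⟩ := h3
    apply h4
    refine Prod.ext ?_ hne
    by_contra h6
    exact h5 (by simpa using h6)
  have hcol : F.Colorable R := SimpleGraph.chromaticNumber_le_iff_colorable.1 hF.le
  have := PkgREAL.lower G _ h1 h2 F hcol hA
  simpa using this

theorem tri_hom {V : Type} (F : SimpleGraph V) (x y z : V) (h1 : F.Adj x y) (h2 : F.Adj x z)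
    (h3 : F.Adj y z) : Nonempty ((⊤ : SimpleGraph (Fin 3)) →g F) := by
  refine ⟨⟨![x, y, z], ?_⟩⟩
  intro a b hab
  fin_cases a <;> fin_cases b
  · exact absurd rfl hab.ne
  · exact h1
  · exact h2
  · exact h1.symm
  · exact absurd rfl hab.ne
  · exact h3
  · exact h2.symm
  · exact h3.symm
  · exact absurd rfl hab.ne

theorem tri {V : Type} (F : SimpleGraph V) (a b c d : V) (h1 : F.Adj a b) (h2 : F.Adj a c)
    (h3 : F.Adj a d) (hbc : b ≠ c) (hbd : b ≠ d) (hcd : c ≠ d) :
    Nonempty ((⊤ : SimpleGraph (Fin 3)) →g F) ∨ Nonempty ((⊤ : SimpleGraph (Fin 3)) →g Fᶜ) := by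
  by_cases e1 : F.Adj b c
  · exact Or.inl (tri_hom F a b c h1 h2 e1)
  by_cases e2 : F.Adj b d
  · exact Or.inl (tri_hom F a b d h1 h3 e2)
  by_cases e3 : F.Adj c d
  · exact Or.inl (tri_hom F a c d h2 h3 e3)
  exact Or.inr (tri_hom Fᶜ b c d (by rw [SimpleGraph.compl_adj]; exact ⟨hbc, e1⟩)
    (by rw [SimpleGraph.compl_adj]; exact ⟨hbd, e2⟩) (by rw [SimpleGraph.compl_adj]; exact ⟨hcd, e3⟩))

theorem tri2 {V : Type} (F : SimpleGraph V) (a b c d : V) (h1 : ¬ F.Adj a b) (h2 : ¬ F.Adj a c)
    (h3 : ¬ F.Adj a d) (hbc : b ≠ c) (hbd : b ≠ d) (hcd : c ≠ d) (hab : a ≠ b) (hac : a ≠ c) (had : a ≠ d) :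
    Nonempty ((⊤ : SimpleGraph (Fin 3)) →g F) ∨ Nonempty ((⊤ : SimpleGraph (Fin 3)) →g Fᶜ) := by
  have h := tri Fᶜ a b c d (by rw [SimpleGraph.compl_adj]; exact ⟨hab, h1⟩)
    (by rw [SimpleGraph.compl_adj]; exact ⟨hac, h2⟩) (by rw [SimpleGraph.compl_adj]; exact ⟨had, h3⟩) hbc hbd hcd
  rw [compl_compl] at h
  exact h.symm

theorem three (F : SimpleGraph (Fin 6)) :
    Nonempty ((⊤ : SimpleGraph (Fin 3)) →g F) ∨ Nonempty ((⊤ : SimpleGraph (Fin 3)) →g Fᶜ) := by
  by_cases a1 : F.Adj 0 1 <;> by_cases a2 : F.Adj 0 2 <;> by_cases a3 : F.Adj 0 3 <;>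
    by_cases a4 : F.Adj 0 4 <;> by_cases a5 : F.Adj 0 5 <;>
    first
    | exact tri F 0 1 2 3 (by assumption) (by assumption) (by assumption) (by decide) (by decide) (by decide)
    | exact tri2 F 0 1 2 3 (by assumption) (by assumption) (by assumption) (by decide) (by decide) (by decide) (by decide) (by decide) (by decide)
    | exact tri F 0 1 2 4 (by assumption) (by assumption) (by assumption) (by decide) (by decide) (by decide)
    | exact tri2 F 0 1 2 4 (by assumption) (by assumption) (by assumption) (by decide) (by decide) (by decide) (by decide) (by decide) (by decide)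
    | exact tri F 0 1 2 5 (by assumption) (by assumption) (by assumption) (by decide) (by decide) (by decide)
    | exact tri2 F 0 1 2 5 (by assumption) (by assumption) (by assumption) (by decide) (by decide) (by decide) (by decide) (by decide) (by decide)
    | exact tri F 0 1 3 4 (by assumption) (by assumption) (by assumption) (by decide) (by decide) (by decide)
    | exact tri2 F 0 1 3 4 (by assumption) (by assumption) (by assumption) (by decide) (by decide) (by decide) (by decide) (by decide) (by decide)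
    | exact tri F 0 1 3 5 (by assumption) (by assumption) (by assumption) (by decide) (by decide) (by decide)
    | exact tri2 F 0 1 3 5 (by assumption) (by assumption) (by assumption) (by decide) (by decide) (by decide) (by decide) (by decide) (by decide)
    | exact tri F 0 1 4 5 (by assumption) (by assumption) (by assumption) (by decide) (by decide) (by decide)
    | exact tri2 F 0 1 4 5 (by assumption) (by assumption) (by assumption) (by decide) (by decide) (by decide) (by decide) (by decide) (by decide)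
    | exact tri F 0 2 3 4 (by assumption) (by assumption) (by assumption) (by decide) (by decide) (by decide)
    | exact tri2 F 0 2 3 4 (by assumption) (by assumption) (by assumption) (by decide) (by decide) (by decide) (by decide) (by decide) (by decide)
    | exact tri F 0 2 3 5 (by assumption) (by assumption) (by assumption) (by decide) (by decide) (by decide)
    | exact tri2 F 0 2 3 5 (by assumption) (by assumption) (by assumption) (by decide) (by decide) (by decide) (by decide) (by decide) (by decide)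
    | exact tri F 0 2 4 5 (by assumption) (by assumption) (by assumption) (by decide) (by decide) (by decide)
    | exact tri2 F 0 2 4 5 (by assumption) (by assumption) (by assumption) (by decide) (by decide) (by decide) (by decide) (by decide) (by decide)
    | exact tri F 0 3 4 5 (by assumption) (by assumption) (by assumption) (by decide) (by decide) (by decide)
    | exact tri2 F 0 3 4 5 (by assumption) (by assumption) (by assumption) (by decide) (by decide) (by decide) (by decide) (by decide) (by decide)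

theorem not_realizable (N : ℕ) (h : N ∈ ({3, 4, 7, 8, 9} : Finset ℕ)) : ¬ Realizable N := by
  rintro ⟨n, G, -, hR⟩
  have h' : N = 3 ∨ N = 4 ∨ N = 7 ∨ N = 8 ∨ N = 9 := by
    simpa only [Finset.mem_insert, Finset.mem_singleton] using h
  by_cases c2 : G.Colorable 2
  · have := le_of_colorable G c2 two hR
    omega
  · have h4 := gt_of_not_colorable G c2 hR
    by_cases c3 : G.Colorable 3
    · have := le_of_colorable G c3 three hR
      omega
    · have h9 := gt_of_not_colorable G c3 hR
      omega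

/-- **Main theorem.** A positive integer is the chromatic Ramsey number of some graph if and only if it is not one of
`3, 4, 7, 8, 9`. -/
theorem result : ∀ N : ℕ, 0 < N → (Realizable N ↔ N ∉ ({3, 4, 7, 8, 9} : Finset ℕ)) := by
  intro N hN
  constructor
  · intro h h'
    exact not_realizable N h' h
  · exact realizable N hN

end Pool.Agent.Results.MP_8666b3_co.AllRealizable
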